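import Pool.Agent.H94.C1.Targets

/-!
# Operations on symbols
-/

set_option autoImplicit false

namespace Pool.Agent.H42.C1

open MeasureTheory Set Filter Topology Pool.Agent.H82.KL Pool.Agent.H94.C1

private lemma sym_mul {d : ℕ} {b φ : EE d → ℂ} (hb : Sym b)
    (hφ : ∀ ξ, ξ ≠ 0 → ContDiffAt ℝ (⊤ : ℕ∞) φ ξ) : Sym (fun ξ => φ ξ * b ξ) := by
  refine ⟨contDiff_iff_contDiffAt.2 fun ξ => ?_, hb.2.1.mul_left, ?_⟩
  · by_cases h : ξ ∈ tsupport b
    · have h0 : ξ ≠ 0 := fun h0 => hb.2.2 (h0 ▸ h)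
      exact (hφ ξ h0).mul hb.1.contDiffAt
    · have h1 : (fun ξ => φ ξ * b ξ) =ᶠ[𝓝 ξ] fun _ => 0 := by
        have h2 : b =ᶠ[𝓝 ξ] 0 := notMem_tsupport_iff_eventuallyEq.1 h
        filter_upwards [h2] with x hx
        rw [hx, Pi.zero_apply, mul_zero]
      exact contDiffAt_const.congr_of_eventuallyEq h1
  · exact fun h => hb.2.2 (tsupport_mul_subset_right h)

private lemma cda_norm {d : ℕ} {ξ : EE d} (h : ξ ≠ 0) :
    ContDiffAt ℝ (⊤ : ℕ∞) (fun ξ : EE d => ((‖ξ‖ : ℝ) : ℂ)) ξ :=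
  Complex.ofRealCLM.contDiff.contDiffAt.comp ξ (contDiffAt_norm ℝ h)

private lemma b_zero {d : ℕ} {b : EE d → ℂ} (hb : Sym b) : b 0 = 0 := by
  by_contra h
  exact hb.2.2 (subset_tsupport b h)

/-- operations on symbols -/
theorem pf_SYM : T_SYM := by
  intro d b hb
  refine ⟨fun j => ?_, ?_, fun j => ?_, fun s => ?_, ?_, fun h hh => ?_⟩
  · refine sym_mul (φ := fun ξ : EE d => ((ξ j : ℝ) : ℂ)) hb fun ξ _ => ?_
    exact Complex.ofRealCLM.contDiff.contDiffAt.comp ξ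
      (EuclideanSpace.proj (𝕜 := ℝ) j : EE d →L[ℝ] ℝ).contDiff.contDiffAt
  · exact sym_mul hb fun ξ h => cda_norm h
  · refine ⟨?_, ?_, ?_⟩
    · have h1 : ContDiff ℝ (⊤ : ℕ∞) (fderiv ℝ b) := hb.1.fderiv_right (by simp)
      exact h1.clm_apply contDiff_const
    · exact hb.2.1.fderiv_apply ℝ (ei j)
    · exact fun h => hb.2.2 (tsupport_fderiv_apply_subset ℝ (ei j) h)
  · refine sym_mul (φ := fun ξ : EE d => e (s * ‖ξ‖)) hb fun ξ h => ?_
    have h1 : ContDiffAt ℝ (⊤ : ℕ∞) (fun ξ : EE d => s * ‖ξ‖) ξ :=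
      contDiffAt_const.mul (contDiffAt_norm ℝ h)
    have h2 : ContDiff ℝ (⊤ : ℕ∞) (fun x : ℝ => e x) := by
      unfold e
      have h4 : ContDiff ℝ (⊤ : ℕ∞) (fun x : ℝ => 2 * Real.pi * x) :=
        contDiff_const.mul contDiff_id
      have h3 : ContDiff ℝ (⊤ : ℕ∞) (fun x : ℝ => ((2 * Real.pi * x : ℝ) : ℂ) * Complex.I) :=
        (Complex.ofRealCLM.contDiff.comp h4).mul contDiff_const
      exact h3.cexp
    exact h2.contDiffAt.comp ξ h1
  · refine ⟨fun ξ => (((‖ξ‖ : ℝ) : ℂ))⁻¹ * b ξ, ?_, ?_⟩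
    · refine sym_mul hb fun ξ h => ?_
      refine (cda_norm h).inv ?_
      exact_mod_cast norm_ne_zero_iff.2 h
    · funext ξ
      unfold mn
      by_cases h : ξ = 0
      · rw [h, b_zero hb]
        simp
      · have h1 : ((‖ξ‖ : ℝ) : ℂ) ≠ 0 := by exact_mod_cast norm_ne_zero_iff.2 h
        rw [← mul_assoc, mul_inv_cancel₀ h1, one_mul]
  · have h1 := sym_mul hb (φ := h) fun ξ _ => hh.contDiffAt
    have h2 : (fun ξ => b ξ * h ξ) = fun ξ => h ξ * b ξ := by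
      funext ξ
      ring
    rw [h2]
    exact h1

end Pool.Agent.H42.C1
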